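import Pool.Agent.Lib.MP_48dd78_an.Assembly

/-!
# The maximal number of critical periods grows at least like `n² log n` (MP_48dd78_an)

There is a constant `C > 0` such that `𝒯(n) ≥ C n² log n` for all sufficiently large `n`, where
`𝒯(n)` (`calT n`) is the maximal number of critical periods of a planar polynomial system of
degree `n`, counted over all its period annuli.

The systems are `z' = G(z) Z_m(z)` with `m = 3^k` and
`Z_m = (-(y (1 - x²) U_{m-1}(x)) / m, T_m(x) (1 + y²))`, which is the system
`u' = -y (1 - u²), y' = u (1 + y²)` folded by the Chebyshev polynomial `u = T_m(x)`; it has `m`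
isochronous centers, whose orbits can be written in closed form.  With `G = 1 + ε q` the periods
are `∫ dθ / G`.  The perturbation is `q = ∑_j η^j q_j + η^k y^N` (`0 ≤ j < k`), where `q_j` is a
combination of the functions `T_{(6v+1) 3^(k-j-1)}(x) y^{2κ}`; its average over the orbits around
the center with angle `3^s (6t+1) π / (2m)` vanishes for `j < s` and is, up to sign, the same
function `F_s` of the orbit for all `t` if `j = s`.  The averages of these functions are linearly
independent (together with the constants), so `F_s'` can be given about `3^s 3^k / 2` sign
changes.  Summing over the `3^(k-s-1)` centers of level `s` and over `s < k` gives about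
`k 9^k` critical periods for a system of degree about `4 · 3^k`.
-/

namespace Pool.Agent.Results.MP_48dd78_an.LogGrowth

open Pool.Agent.MP48dd78 Filter

/-- There is `C > 0` such that, for all sufficiently large `n`, the maximal number of critical
periods of planar polynomial systems of degree `n` is at least `C n² log n`. -/
theorem result : ∃ C : ℝ, 0 < C ∧ ∀ᶠ n : ℕ in atTop, ∃ N : ℕ,
    C * (n : ℝ) ^ 2 * Real.log n ≤ N ∧ (N : ℕ∞) ≤ calT n :=
  main

end Pool.Agent.Results.MP_48dd78_an.LogGrowth
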